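import Mathlib
import Pool.Agent.W368.SC.Coarse

/-!
Andre's supercharacter theory of `U_n(F)` is the coarsest supercharacter theory containing all
single-box characters as irreducible characters, for every `n` and every finite field `F`.
-/

namespace Pool.Agent.Results.MP_1f99fc_al.AndreCoarsest

open Pool.Agent.W368.SC

theorem result (n : ℕ) (F : Type) [Field F] [Finite F] (theta : AddChar F ℂ)
    (htheta : ∃ x, theta x ≠ 1) :
    ∃ A : SuperTheory (U n F), IsAndre theta A ∧ ContainsBoxes theta A ∧
      ∀ T : SuperTheory (U n F), ContainsBoxes theta T → A.Coarser T :=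
  ⟨andre n htheta, andre_isAndre htheta, andre_contains htheta,
    fun T hT => coarser htheta T hT⟩

end Pool.Agent.Results.MP_1f99fc_al.AndreCoarsest
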